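import Pool.Agent.Helper99.PC.Final
import Pool.Agent.Helper17.CL.Final

/-!
# Shore's lattice is an initial segment of the degrees of constructibility

Let `T` be the lattice with bottom, top, elements `a_0 > a_1 > a_2 > …` and one more element `b`
which is incomparable with all `a_n`.  If `ω₁` is inaccessible from reals, then `T` is isomorphic
to a downward closed subset of the degrees of constructibility.

The reals are the sets of natural numbers, `ConFrom x y` is `x ∈ L[y]`, and `omegaOneL r` is the
least ordinal which is not countable in `L[r]`.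
-/

set_option autoImplicit false

namespace Pool.Agent.Results.MP_c2016b_lc.ShoreLattice

open Pool.Agent.Helper17.CL

/-! ### The lattice `T` -/

/-- The elements of Shore's lattice. -/
inductive ShoreT : Type
  | bot : ShoreT
  | top : ShoreT
  | a (n : ℕ) : ShoreT
  | b : ShoreT

namespace ShoreT

/-- The order of Shore's lattice: `bot` is the least element, `top` is the greatest element,
`a 0 > a 1 > a 2 > …`, and `b` is incomparable with all `a n`. -/
def le : ShoreT → ShoreT → Prop
  | bot, _ => True
  | _, top => True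
  | a m, a n => n ≤ m
  | b, b => True
  | _, _ => False

/-- The supremum. -/
def sup : ShoreT → ShoreT → ShoreT
  | bot, y => y
  | x, bot => x
  | a m, a n => a (min m n)
  | b, b => b
  | _, _ => top

/-- The infimum. -/
def inf : ShoreT → ShoreT → ShoreT
  | top, y => y
  | x, top => x
  | a m, a n => a (max m n)
  | b, b => b
  | _, _ => bot

instance : PartialOrder ShoreT where
  le := le
  le_refl x := by cases x <;> simp [le]
  le_trans x y z := by
    cases x <;> cases y <;> cases z <;> simp [le] <;> omega
  le_antisymm x y := by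
    cases x <;> cases y <;> simp [le] <;> omega

theorem le_iff {x y : ShoreT} : x ≤ y ↔ le x y := Iff.rfl

/-- `T` is a lattice. -/
instance : Lattice ShoreT where
  sup := sup
  inf := inf
  le_sup_left x y := by cases x <;> cases y <;> simp [le_iff, le, sup]
  le_sup_right x y := by cases x <;> cases y <;> simp [le_iff, le, sup]
  sup_le x y z := by
    cases x <;> cases y <;> cases z <;> simp [le_iff, le, sup] <;> omega
  inf_le_left x y := by cases x <;> cases y <;> simp [le_iff, le, inf]
  inf_le_right x y := by cases x <;> cases y <;> simp [le_iff, le, inf]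
  le_inf x y z := by
    cases x <;> cases y <;> cases z <;> simp [le_iff, le, inf] <;> omega

end ShoreT

/-! ### The degrees of constructibility -/

/-- The reals: sets of natural numbers, preordered by relative constructibility. -/
structure Rls : Type where
  toSet : Set ℕ

/-- `x ≤ y` if and only if `x ∈ L[y]`. -/
instance : Preorder Rls where
  le x y := ConFrom x.toSet y.toSet
  le_refl x := ConFrom.refl x.toSet
  le_trans _ _ _ h₁ h₂ := ConFrom.trans h₁ h₂

/-- The degrees of constructibility: the classes of the reals with respect to `x ≤ y ∧ y ≤ x`, with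
the induced partial order. -/
abbrev Deg : Type := Antisymmetrization Rls (· ≤ ·)

/-! ### The result -/

/-- The element of the other form of the lattice. -/
def conv : ShoreT → WithBot (WithTop (ℕᵒᵈ ⊕ Unit))
  | .bot => ⊥
  | .top => ((⊤ : WithTop (ℕᵒᵈ ⊕ Unit)) : WithBot (WithTop (ℕᵒᵈ ⊕ Unit)))
  | .a n => (((Sum.inl (OrderDual.toDual n) : ℕᵒᵈ ⊕ Unit) : WithTop (ℕᵒᵈ ⊕ Unit)) :
      WithBot (WithTop (ℕᵒᵈ ⊕ Unit)))
  | .b => (((Sum.inr () : ℕᵒᵈ ⊕ Unit) : WithTop (ℕᵒᵈ ⊕ Unit)) :
      WithBot (WithTop (ℕᵒᵈ ⊕ Unit)))

theorem conv_le (x y : ShoreT) : conv x ≤ conv y ↔ x ≤ y := by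
  cases x <;> cases y <;> simp [conv, ShoreT.le_iff, ShoreT.le]

theorem conv_surj (t : WithBot (WithTop (ℕᵒᵈ ⊕ Unit))) : ∃ x, conv x = t := by
  rcases t with _ | _ | (n | _)
  · exact ⟨.bot, rfl⟩
  · exact ⟨.top, rfl⟩
  · exact ⟨.a (OrderDual.ofDual n), rfl⟩
  · exact ⟨.b, rfl⟩

/-- From reals to degrees. -/
theorem of_embeds (h : Pool.Agent.Helper44.CL.Embeds ConFrom) :
    ∃ f : ShoreT ↪o Deg, IsLowerSet (Set.range f) := by
  obtain ⟨g, hg, hg'⟩ := h
  refine ⟨OrderEmbedding.ofMapLEIff
    (fun x => toAntisymmetrization (α := Rls) (· ≤ ·) ⟨g (conv x)⟩) ?_, ?_⟩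
  · intro x y
    rw [toAntisymmetrization_le_toAntisymmetrization_iff]
    exact (hg _ _).trans (conv_le x y)
  · rintro _ d hd ⟨y, rfl⟩
    induction d using Antisymmetrization.ind with
    | _ d =>
      have h1 : d ≤ ⟨g (conv y)⟩ := toAntisymmetrization_le_toAntisymmetrization_iff.1 hd
      obtain ⟨s, h2, h3⟩ := hg' (conv y) d.toSet h1
      obtain ⟨x, rfl⟩ := conv_surj s
      refine ⟨x, ?_⟩
      apply le_antisymm
      · exact toAntisymmetrization_le_toAntisymmetrization_iff.2 h3
      · exact toAntisymmetrization_le_toAntisymmetrization_iff.2 h2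

/-- If `ω₁` of `L[r]` is countable for all reals `r`, then Shore's lattice is isomorphic to a
downward closed subset of the degrees of constructibility. -/
theorem result (hω : ∀ r : Set ℕ, omegaOneL r < Ordinal.omega 1) :
    ∃ f : ShoreT ↪o Deg, IsLowerSet (Set.range f) :=
  of_embeds (Helper99.PC.embeds (iface hω))

end Pool.Agent.Results.MP_c2016b_lc.ShoreLattice
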